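import Pool.Agent.TH970.GB.Plane

/-! A lower bound for the growth of best approximations of a vector in the plane, for all norms. -/

set_option autoImplicit false

open Filter

namespace Pool.Agent.Results.MP_f10524_nt.SevenSteps

/-- `N` is a norm on `ℝ²`. -/
structure IsNorm (N : (Fin 2 → ℝ) → ℝ) : Prop where
  zero_iff : ∀ x, N x = 0 ↔ x = 0
  add_le : ∀ x y, N (x + y) ≤ N x + N y
  smul : ∀ (r : ℝ) (x : Fin 2 → ℝ), N (r • x) = |r| * N x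

/-- `Θ` is admissible: `q Θ` is not an integer vector for nonzero integers `q`. -/
def Admissible (θ : Fin 2 → ℝ) : Prop :=
  ∀ q : ℤ, q ≠ 0 → ∀ p : Fin 2 → ℤ, (fun k => (q : ℝ) * θ k) ≠ fun k => (p k : ℝ)

/-- The error `|x Θ - y|` of the integer vector `z = (x, y)`. -/
noncomputable def err (N : (Fin 2 → ℝ) → ℝ) (θ : Fin 2 → ℝ) (z : ℤ × (Fin 2 → ℤ)) : ℝ :=
  N (fun k => (z.1 : ℝ) * θ k - (z.2 k : ℝ))

/-- `z` is a best approximation vector: `z ≠ 0` and the only integer points `(x', y')` with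
`|x'| ≤ |x|` and `|x' Θ - y'| ≤ |x Θ - y|` are `0` and `±z`. -/
def IsBest (N : (Fin 2 → ℝ) → ℝ) (θ : Fin 2 → ℝ) (z : ℤ × (Fin 2 → ℤ)) : Prop :=
  z ≠ 0 ∧ ∀ z' : ℤ × (Fin 2 → ℤ), |z'.1| ≤ |z.1| → err N θ z' ≤ err N θ z →
    z' = 0 ∨ z' = z ∨ z' = -z

/-- `z 1, z 2, …` are all best approximation vectors, one of each pair `±z`, indexed so that
`M_ν = |x_ν|` increases. -/
def IsEnumeration (N : (Fin 2 → ℝ) → ℝ) (θ : Fin 2 → ℝ) (z : ℕ → ℤ × (Fin 2 → ℤ)) : Prop :=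
  (∀ ν, 1 ≤ ν → IsBest N θ (z ν)) ∧ (∀ i j, 1 ≤ i → i < j → |(z i).1| < |(z j).1|) ∧
    (∀ v, IsBest N θ v → ∃ ν, 1 ≤ ν ∧ (v = z ν ∨ v = -z ν))

/-- `G(Θ) = liminf M_ν^(1/ν)`. -/
noncomputable def G (z : ℕ → ℤ × (Fin 2 → ℤ)) : EReal :=
  liminf (fun ν : ℕ => (((|(z ν).1| : ℤ) : ℝ) ^ (1 / (ν : ℝ)) : ℝ)) atTop

/-- For every norm on `ℝ²` and every admissible `Θ`: eventually `M_{ν+7} ≥ 2 M_{ν+1} + M_ν`; hence
`G(Θ)` is at least the positive root of `t^7 = 2 t + 1`, and `G(Θ) ≥ 1.19`. -/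
theorem result (N : (Fin 2 → ℝ) → ℝ) (hN : IsNorm N) (θ : Fin 2 → ℝ) (_hθ : Admissible θ)
    (z : ℕ → ℤ × (Fin 2 → ℤ)) (hz : IsEnumeration N θ z) :
    (∀ᶠ ν in atTop, 2 * |(z (ν + 1)).1| + |(z ν).1| ≤ |(z (ν + 7)).1|) ∧
    (∀ t : ℝ, 0 < t → t ^ 7 = 2 * t + 1 → (t : EReal) ≤ G z) ∧
    ((1.19 : ℝ) : EReal) ≤ G z := by
  have hN' : Pool.Agent.TH970.GB.IsNorm N := ⟨hN.zero_iff, hN.add_le, hN.smul⟩
  have hz' : Pool.Agent.TH970.GB.Plane.IsEnum N θ z := hz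
  obtain ⟨ν0, hν0, h7⟩ := Pool.Agent.TH970.GB.Plane.seven hN' z hz'
  have hpos : ∀ ν, ν0 ≤ ν → (0 : ℝ) < ((|(z ν).1| : ℤ) : ℝ) := by
    intro ν hν
    have h1 := hz.2.1 1 ν le_rfl (by omega)
    have h2 := abs_nonneg (z 1).1
    exact_mod_cast lt_of_le_of_lt h2 h1
  have hstep : ∀ ν, ν0 ≤ ν → 2 * ((|(z (ν + 1)).1| : ℤ) : ℝ) + ((|(z ν).1| : ℤ) : ℝ) ≤
      ((|(z (ν + 7)).1| : ℤ) : ℝ) := by
    intro ν hν
    exact_mod_cast h7 ν hν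
  have hg : ∀ t : ℝ, 0 < t → t ^ 7 ≤ 2 * t + 1 → (t : EReal) ≤ G z := fun t ht htt =>
    Pool.Agent.TH970.GB.Plane.growth7 (fun ν => ((|(z ν).1| : ℤ) : ℝ)) ν0 hpos hstep t ht htt
  refine ⟨?_, fun t ht htt => hg t ht htt.le, hg 1.19 (by norm_num) (by norm_num)⟩
  filter_upwards [eventually_ge_atTop ν0] with ν hν
  exact h7 ν hν

end Pool.Agent.Results.MP_f10524_nt.SevenSteps
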